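import Pool.Agent.H562R4.TwelfthLoc
import Pool.Agent.H306R2.EvenConst

set_option autoImplicit false

/-!
Unconditional lower bound for the twelfth moment of zeta on the critical line on the intervals
`[T, T + H]`, `T / (log T) ^ α ≤ H ≤ T`, `α < 1 / 2`.
-/

open Filter

theorem Pool.Agent.Results.MP_112ba8_nt.TwelfthWindows.result (α : ℝ) (h0 : 0 ≤ α)
    (h1 : α < 1 / 2) :
    ∀ᶠ T : ℝ in atTop, ∀ H : ℝ, T / Real.log T ^ α ≤ H → H ≤ T →
      1269000 * (∏' p : Nat.Primes, ((1 - 1 / (p : ℝ)) ^ 36 *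
          ∑' m : ℕ, ((m + 5).choose m : ℝ) ^ 2 * (1 / (p : ℝ)) ^ m)) / (Nat.factorial 36 : ℝ) *
        Real.log T ^ 36 ≤
      1 / H * ∫ t in T..(T + H), ‖riemannZeta (1 / 2 + t * Complex.I)‖ ^ 12 := by
  have h := Pool.Agent.H562R4.twelfth_short α h0 h1
  have e := Pool.Agent.H306R2.aF_nat 6 (by norm_num)
  have e3 : ((6 : ℕ) : ℝ) = 6 := by norm_num
  rw [e3] at e
  rw [e] at h
  have e4 : (∏' p : Nat.Primes, ((1 - 1 / (p : ℝ)) ^ (6 ^ 2) *
      ∑' m : ℕ, ((m + 6 - 1).choose m : ℝ) ^ 2 * (1 / (p : ℝ)) ^ m)) =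
      ∏' p : Nat.Primes, ((1 - 1 / (p : ℝ)) ^ 36 *
      ∑' m : ℕ, ((m + 5).choose m : ℝ) ^ 2 * (1 / (p : ℝ)) ^ m) := by
    refine tprod_congr fun p => ?_
    norm_num
  rw [e4] at h
  filter_upwards [h, eventually_gt_atTop 1] with T hT hT1 H hH1 hH2
  have hlog : 0 < Real.log T := Real.log_pos hT1
  have hH0 : 0 < H := by
    refine lt_of_lt_of_le ?_ hH1
    have : 0 < T := by linarith
    positivity
  have h2 := hT H hH1 hH2
  rw [one_div H, ← div_eq_inv_mul, le_div_iff₀ hH0]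
  linarith
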